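import Pool.Agent.Q148.BA.Seqs

/-!
# Bombieri's asymptotic formula for the pairs `n, an + b`, for almost all `b`

`Λ₂(m) = ∑_{d ∣ m} μ(d) log²(m/d)` is supported on the integers with at most two distinct prime factors;
`Λ₂(p) = log² p` and `Λ₂(p p') = 2 log p log p'`. For the linear forms `n` and `a n + b` (and `a n - b`) with
coprime `a, b`, `a b` even, `a ≤ (log x)^A`, the sum of `Λ₂(a p + b)` over the primes `p ≤ y` is
`2 𝔖(ab) y`, up to `C κ log²(1/κ) 𝔖(ab) x`, simultaneously for all these `a`, both signs and all `y ≤ x`,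
for all `b ≤ x (log x)^A` outside a set of at most `x^(1-κ)` exceptions.
-/

set_option autoImplicit false

namespace Pool.Agent.Results.MP_92f640_nt.BombieriFormulaLinearForms

open Finset

/-- `Λ₂(m) = ∑_{d ∣ m} μ(d) log²(m/d)` -/
noncomputable def Lambda2 (m : ℕ) : ℝ :=
  ∑ d ∈ m.divisors, (ArithmeticFunction.moebius d : ℝ) * Real.log ((m / d : ℕ) : ℝ) ^ 2

/-- the constant of the twin primes: the infimum (the limit) of the decreasing products
`∏_{3 ≤ p ≤ z} (1 - 1/(p-1)²)` -/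
noncomputable def twin : ℝ := ⨅ z : ℕ, ∏ p ∈ (Icc 3 z).filter Nat.Prime, (1 - 1 / ((p : ℝ) - 1) ^ 2)

/-- the singular series of the pair `n, a n + b` with `h = a b` even, `a`, `b` coprime:
`2 C₂ ∏_{p ∣ h, p > 2} (p - 1)/(p - 2)` -/
noncomputable def sing (h : ℕ) : ℝ :=
  2 * twin * ∏ p ∈ h.primeFactors.filter (fun p => 2 < p), ((p : ℝ) - 1) / ((p : ℝ) - 2)

/-- the primes `≤ y` -/
def primes (y : ℕ) : Finset ℕ := (Icc 1 y).filter Nat.Prime

/-- the absolute value of `m - n` -/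
def dist (m n : ℕ) : ℕ := (m - n) + (n - m)

theorem result : ∃ C : ℝ, 0 < C ∧ ∀ κ : ℝ, 0 < κ → κ ≤ 1 / 8 → ∀ A : ℕ,
    ∃ x₀ : ℕ, ∀ x : ℕ, x₀ ≤ x → ∃ Ex : Finset ℕ, (Ex.card : ℝ) ≤ (x : ℝ) ^ (1 - κ) ∧
      ∀ b : ℕ, 1 ≤ b → (b : ℝ) ≤ x * Real.log x ^ A → b ∉ Ex →
        ∀ a : ℕ, 1 ≤ a → (a : ℝ) ≤ Real.log x ^ A → a.Coprime b → Even (a * b) → ∀ y : ℕ, y ≤ x →
          |∑ p ∈ primes y, Lambda2 (a * p + b) - 2 * sing (a * b) * y| ≤
            C * (κ * Real.log (1 / κ) ^ 2) * sing (a * b) * x ∧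
          |∑ p ∈ primes y, Lambda2 (dist (a * p) b) - 2 * sing (a * b) * y| ≤
            C * (κ * Real.log (1 / κ) ^ 2) * sing (a * b) * x :=
  Pool.Agent.Q148.BA.forms

end Pool.Agent.Results.MP_92f640_nt.BombieriFormulaLinearForms
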