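import Pool.Agent.Q117.MG.All

/-!
# MP_92f640_nt: sums of two almost primes in prescribed residue classes modulo q, for every q
-/

set_option autoImplicit false

namespace Pool.Agent.Results.MP_92f640_nt.EveryMultipleEveryClass

open Finset
open Pool.Agent.Q117.LF (Ro)

/-- for every prime `p` not dividing `q` there is a translate of `E` without multiples of `p` -/
def Admissible (q : ℕ) (E : Finset ℤ) : Prop := ∀ p : ℕ, p.Prime → ¬ p ∣ q → ∃ r : ℤ, ∀ e ∈ E, ¬ (p : ℤ) ∣ r + e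

/-- the number of the residue classes modulo `p` met by `E` -/
noncomputable def omega (E : Finset ℤ) (p : ℕ) : ℕ := (E.image (fun e : ℤ => e % (p : ℤ))).card

/-- the product of `1 - omega / p` over the primes `p ≤ y` that do not divide `q` -/
noncomputable def dens (y q : ℕ) (E : Finset ℤ) : ℝ := ∏ p ∈ (Icc 1 y).filter (fun p : ℕ => p.Prime ∧ ¬ p ∣ q), (1 - (omega E p : ℝ) / p)

/-- the `q e`, `e ∈ E`, and the `- n - q e`, `e ∈ E'` -/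
def places (n q : ℕ) (E E' : Finset ℤ) : Finset ℤ := E.image (fun e => (q : ℤ) * e) ∪ E'.image (fun e => -(n : ℤ) - q * e)

open Classical in
/-- the `0 < m < n`, `m ≡ a (mod q)`, with `m` a product of at most `R` primes, all `≥ x`, the `m + q e` (`e ∈ E`) and the `n - m + q e` (`e ∈ E'`) without prime factors `≤ z`, the other `m + q s` and `n - m + q s`, `|s| ≤ L`, with a prime factor `≤ z`, and for `|s| ≤ L'` one of `m + q s`, `n - m - q s` with a prime factor `≤ z` unless `s ∈ E` and `- s ∈ E'` -/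
noncomputable def Summands (n q a : ℕ) (E E' : Finset ℤ) (R : ℕ) (x z L L' : ℝ) : Finset ℕ :=
  (Ioo 0 n).filter (fun m : ℕ => m ≡ a [MOD q] ∧ m.primeFactorsList.length ≤ R ∧ (∀ p : ℕ, p.Prime → p ∣ m → x ≤ p) ∧
    (∀ e ∈ E, Ro z ((m : ℤ) + q * e)) ∧ (∀ e ∈ E', Ro z ((n : ℤ) - m + q * e)) ∧
    (∀ s : ℤ, |(s : ℝ)| ≤ L → s ∉ E → ¬ Ro z ((m : ℤ) + q * s)) ∧ (∀ s : ℤ, |(s : ℝ)| ≤ L → s ∉ E' → ¬ Ro z ((n : ℤ) - m + q * s)) ∧
    ∀ s : ℤ, |(s : ℝ)| ≤ L' → Ro z ((m : ℤ) + q * s) → Ro z ((n : ℤ) - m - q * s) → s ∈ E ∧ -s ∈ E')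

theorem result : ∀ (k R : ℕ) (κ : ℝ), 1 ≤ R → 0 ≤ κ → 25 < 3 * (8 * R - 1) * (1 - κ) → ∃ t : ℕ, 1 ≤ t ∧ ∃ c : ℝ, 0 < c ∧ ∃ ν : ℝ, 0 < ν ∧ ∃ x0 : ℝ, ∀ x : ℝ, x0 ≤ x →
    ∀ q : ℕ, 1 ≤ q → (q : ℝ) ≤ x ^ κ → ∀ n : ℕ, x / 2 < n → (n : ℝ) ≤ x → ∀ a : ℕ, a.Coprime q → IsCoprime ((n : ℤ) - a) q →
    ∀ E E' : Finset ℤ, E.card ≤ k → E'.card ≤ k → (∀ e ∈ E ∪ E', |(e : ℝ)| ≤ x / (4 * q)) → 0 ∈ E → 0 ∈ E' → Admissible q (places n q E E') →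
      c * (x / q * dens ⌊x⌋₊ q (places n q E E')) ≤
        ((Summands n q a E E' R (x ^ ((1 - κ) / 7)) (x ^ (1 / (t : ℝ))) (ν * ((Nat.totient q : ℝ) / q * Real.log x)) (ν / dens ⌊x⌋₊ q {0, (n : ℤ)})).card : ℝ) :=
  Pool.Agent.Q117.MG.gmqC

end Pool.Agent.Results.MP_92f640_nt.EveryMultipleEveryClass
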