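import Pool.Agent.Q253.Thin.Common
import Pool.Agent.Q253.Thin.GoldSample

/-!
# Goldbach lower bounds on the multiples of `q`: what happens if they fail, for EVERY `q ≤ x / 4`

For all large `x` and EVERY `q ≤ x / 4` (in particular `q = 1`, and also those `q` for which only one or a few
multiples are considered) either the assertion of the problem holds for `x, q`, or there are `k` primes
`l_i > x ^ (1/10)` in an arithmetic progression with a small difference such that for every `i` a positive proportion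
of ALL even multiples `n` of `q` in `(x / 2, x]` has the expected number of representations `n = p + l_i p'`.

Libraries: `Y840.CT.GenF` (Chen's theorem for systems of shifts), `Y151.HS.FLC` (fundamental lemma in residue classes),
`Y843.HS.Top` (Szemerédi's theorem relative to sifted sets), all starting files.
-/

set_option autoImplicit false

namespace Pool.Agent.Results.MP_92f640_nt.StructureOfFailure

open Finset Filter
open Pool.Agent.Y840.CT Pool.Agent.Q253.Thin

/-- the number of the ordered representations of `n` as a sum of two primes -/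
def g (n : ℕ) : ℕ := ((antidiagonal n).filter (fun a => a.1.Prime ∧ a.2.Prime)).card

open Classical in
/-- the number of the representations `n = p + l p'` with primes `p` and `p' ≥ l` -/
noncomputable def gl (l n : ℕ) : ℕ :=
  ((range (n + 1)).filter (fun p => p.Prime ∧ ∃ p' : ℕ, p'.Prime ∧ l ≤ p' ∧ n = p + l * p')).card

open Classical in
/-- the even multiples `n` of `q` with `x / 2 < n ≤ x` and the property `P` -/
noncomputable def mult (x : ℝ) (q : ℕ) (P : ℕ → Prop) : Finset ℕ :=
  (Icc 1 ⌊x⌋₊).filter (fun n => q ∣ n ∧ Even n ∧ x / 2 < n ∧ P n)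

/-- **The structure of a failure.** There are `δ, η > 0` such that for all `k` there are `D`, `x₀` such that for all real
`x ≥ x₀` and EVERY integer `1 ≤ q ≤ x / 4` one of the following holds:

(1) all but at most `x / (8 q)` of the even multiples `n` of `q` in `(x / 2, x]` satisfy `g n ≥ δ n / log ^ 2 n`;

(2) there are `k` primes `l_i = l + i d > x ^ (1/10)` in an arithmetic progression, `d ≤ log ^ D x`, such that for EVERY
`i` at least `η x / q` of the even multiples `n` of `q` in `(x / 2, x]` have at least `δ n / (l_i log ^ 2 n)`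
representations `n = p + l_i p'` with primes `p` and `p' ≥ l_i`. -/
theorem result : ∃ δ η : ℝ, 0 < δ ∧ 0 < η ∧ ∀ k : ℕ, ∃ (D : ℕ) (x₀ : ℝ), ∀ x : ℝ, x₀ ≤ x → ∀ q : ℕ, 1 ≤ q →
    (q : ℝ) ≤ x / 4 →
      ((mult x q (fun n => (g n : ℝ) < δ * (n / Real.log n ^ 2))).card : ℝ) ≤ x / (8 * q) ∨
      ∃ l d : ℕ, 1 ≤ d ∧ (d : ℝ) ≤ Real.log x ^ D ∧ ∀ i < k, (l + i * d).Prime ∧
        x ^ (1 / 10 : ℝ) < ((l + i * d : ℕ) : ℝ) ∧
        η * (x / q) ≤ ((mult x q (fun n => δ * (n / (((l + i * d : ℕ) : ℝ) * Real.log n ^ 2)) ≤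
          (gl (l + i * d) n : ℝ))).card : ℝ) := by
  classical
  obtain ⟨t, ht, c, hc, η, hη, hfam⟩ := familyDich 1
  obtain ⟨cV, hcV, hVlow⟩ := VF_low 1
  refine ⟨c * cV / 16, η / 8, by positivity, by positivity, ?_⟩
  intro k
  obtain ⟨D, X₀, hX₀⟩ := hfam k (1 / 4) (by norm_num)
  refine ⟨D, max (X₀ : ℝ) (2 ^ 20), ?_⟩
  intro x hx q hq1 hqx
  have hx1 : (X₀ : ℝ) ≤ x := (le_max_left _ _).trans hx
  have hx2 : (2 : ℝ) ^ 20 ≤ x := (le_max_right _ _).trans hx
  have hx0 : 0 < x := lt_of_lt_of_le (by positivity) hx2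
  set X := ⌊x⌋₊ with hX
  have hX1 : X₀ ≤ X := Nat.le_floor hx1
  have hX2 : 2 ^ 20 ≤ X := Nat.le_floor (by exact_mod_cast hx2)
  have hXx : (X : ℝ) ≤ x := Nat.floor_le hx0.le
  have hxX : x < X + 1 := Nat.lt_floor_add_one x
  have hXr : (2 : ℝ) ^ 20 ≤ X := by exact_mod_cast hX2
  have hX0 : (0 : ℝ) < X := lt_of_lt_of_le (by positivity) hXr
  have hX16 : (16 : ℝ) ≤ X := le_trans (by norm_num) hXr
  have hlX : 0 < Real.log X := Real.log_pos (by linarith)
  have hq0 : (0 : ℝ) < q := by exact_mod_cast hq1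
  set δ : ℝ := c * cV / 16 with hδ
  have hδ0 : 0 < δ := by positivity
  set I := mult x q (fun n => (g n : ℝ) < δ * (n / Real.log n ^ 2)) with hI
  have hIm : ∀ n ∈ I, 2 ≤ n ∧ n ≤ X ∧ q ∣ n ∧ Even n ∧ x / 2 < n ∧ (g n : ℝ) < δ * (n / Real.log n ^ 2) := by
    intro n hn
    rw [hI] at hn
    unfold mult at hn
    rw [mem_filter, mem_Icc] at hn
    obtain ⟨⟨a1, a2⟩, a3, a4, a5, a6⟩ := hn
    refine ⟨?_, a2, a3, a4, a5, a6⟩
    obtain ⟨w, hw⟩ := a4
    omega
  by_cases hcase : (I.card : ℝ) ≤ x / (8 * q)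
  · left
    exact hcase
  right
  push Not at hcase
  have hxq : 0 < x / (8 * q) := by positivity
  have hIpos : (0 : ℝ) < I.card := hxq.trans hcase
  have hIne : I.Nonempty := card_pos.1 (by exact_mod_cast hIpos)
  have hBr : (X : ℝ) / 4 ≤ ((X / 2 : ℕ) : ℝ) := by
    have h1 : X ≤ 4 * (X / 2) := by omega
    have h2 : (X : ℝ) ≤ 4 * ((X / 2 : ℕ) : ℝ) := by exact_mod_cast h1
    linarith
  -- comparison of the sizes
  have hcomp : ∀ n ∈ I, X / 2 < n ∧ ∀ l : ℝ, 0 < l → δ * (n / (l * Real.log n ^ 2)) ≤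
      c * ((((X / 2 : ℕ) : ℝ) - (0 : ℕ)) * VF (fun _ => {(n : ℤ)}) X / l) := by
    intro n hn
    obtain ⟨a1, a2, a3, a4, a5, a6⟩ := hIm n hn
    have hn1 : (X : ℝ) / 2 < n := by linarith
    have hn2 : X < 2 * n := by
      have : (X : ℝ) < 2 * n := by linarith
      exact_mod_cast this
    refine ⟨by omega, ?_⟩
    intro l hl
    have hsys := sysN a1 a4 a2
    have hV := hVlow X (by omega) _ hsys.card hsys.loc
    have hnr : (n : ℝ) ≤ X := by exact_mod_cast a2
    have hn0 : (8 : ℝ) ≤ n := by linarith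
    have hln : 0 < Real.log n := Real.log_pos (by linarith)
    have hlog : Real.log X ≤ 2 * Real.log n := by
      have h1 : (X : ℝ) ≤ (n : ℝ) ^ 2 := by nlinarith
      have h2 := Real.log_le_log hX0 h1
      rwa [Real.log_pow, Nat.cast_ofNat] at h2
    have h1 : cV / (2 * Real.log n) ^ 2 ≤ VF (fun _ => {(n : ℤ)}) X := by
      refine le_trans ?_ hV
      apply div_le_div_of_nonneg_left hcV.le (by positivity)
      exact pow_le_pow_left₀ hlX.le hlog 2
    have h2 : (n : ℝ) / 4 * (cV / (2 * Real.log n) ^ 2) ≤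
        (((X / 2 : ℕ) : ℝ) - (0 : ℕ)) * VF (fun _ => {(n : ℤ)}) X := by
      apply mul_le_mul _ h1 (by positivity)
      · push_cast
        linarith
      · push_cast
        linarith
    have h3 := mul_le_mul_of_nonneg_left (div_le_div_of_nonneg_right h2 hl.le) hc.le
    refine le_trans (le_of_eq ?_) h3
    rw [hδ]
    field_simp
    ring
  have hgood : ∀ n ∈ I, ∀ p ∈ GoodF t X 0 (X / 2) (fun _ => {(n : ℤ)}) n, p.Prime ∧ p < n ∧
      ((n : ℤ) - p).natAbs = n - p := by
    intro n hn p hp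
    unfold GoodF at hp
    rw [mem_filter, mem_Ioc] at hp
    have := (hcomp n hn).1
    exact ⟨hp.2.1, by omega, by omega⟩
  obtain ⟨l, d, h1, h2, h3⟩ := hX₀ X hX1 ℕ I (fun n => fun _ => {(n : ℤ)}) (fun n => (n : ℤ)) (fun _ => 0)
    (fun _ => X / 2) hIne (by
    intro n hn
    obtain ⟨a1, a2, a3, a4, a5, a6⟩ := hIm n hn
    refine ⟨sysN a1 a4 a2, Nat.div_le_self _ _, by push_cast; linarith, ?_⟩
    have h4 := (hcomp n hn).2 1 one_pos
    rw [one_mul, div_one] at h4
    refine lt_of_le_of_lt ?_ (lt_of_lt_of_le a6 h4)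
    have h5 : (PF t X 0 (X / 2) (fun _ => {(n : ℤ)}) n).card ≤ g n := by
      unfold g
      apply card_le_card_of_injOn (fun p => (p, n - p))
      · intro p hp
        rw [mem_coe] at hp
        unfold PF at hp
        rw [mem_filter] at hp
        obtain ⟨b1, b2, b3⟩ := hgood n hn p hp.1
        rw [mem_coe, mem_filter, Finset.HasAntidiagonal.mem_antidiagonal]
        refine ⟨by simp only; omega, b1, ?_⟩
        have := hp.2
        rw [b3] at this
        exact this
      · intro p _ p' _ he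
        exact (Prod.mk.inj he).1
    exact_mod_cast h5)
  refine ⟨l, d, h1, h2.trans ?_, ?_⟩
  · apply pow_le_pow_left₀ hlX.le
    exact Real.log_le_log hX0 hXx
  · intro i hi
    have h4 := h3 i hi
    have hpos : 0 < (I.filter (fun n : ℕ => l + i * d ∈ Gd c t X 0 (X / 2) (fun _ => {(n : ℤ)}) (n : ℤ))).card := by
      have : (0 : ℝ) < ((I.filter (fun n : ℕ => l + i * d ∈ Gd c t X 0 (X / 2) (fun _ => {(n : ℤ)}) (n : ℤ))).card : ℝ) :=
        lt_of_lt_of_le (by positivity) h4
      exact_mod_cast this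
    obtain ⟨n0, hn0⟩ := card_pos.1 hpos
    rw [mem_filter] at hn0
    have hn1 := hn0.2
    unfold Gd at hn1
    rw [mem_filter] at hn1
    obtain ⟨_, ⟨b1, b2⟩, _, _⟩ := hn1
    have hl0 : (0 : ℝ) < ((l + i * d : ℕ) : ℝ) := by exact_mod_cast b1.pos
    refine ⟨b1, ?_, ?_⟩
    · refine lt_of_le_of_lt ?_ b2
      have e1 : x ^ (1 / 10 : ℝ) = (x ^ (9 / 10 : ℝ)) ^ (1 / 9 : ℝ) := by
        rw [← Real.rpow_mul hx0.le]
        norm_num
      rw [e1]
      apply Real.rpow_le_rpow (by positivity) _ (by norm_num)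
      have h5 : (4 : ℝ) ≤ x ^ (1 / 10 : ℝ) := by
        have h6 := Real.rpow_le_rpow (by positivity) hx2 (show (0 : ℝ) ≤ 1 / 10 by norm_num)
        have h7 : ((2 : ℝ) ^ 20) ^ (1 / 10 : ℝ) = 4 := by
          rw [← Real.rpow_natCast, ← Real.rpow_mul (by norm_num)]
          norm_num
        linarith
      have h6 : x = x ^ (9 / 10 : ℝ) * x ^ (1 / 10 : ℝ) := by
        rw [← Real.rpow_add hx0]
        norm_num
      have h7 : 0 < x ^ (9 / 10 : ℝ) := by positivity
      have h8 : 4 * x ^ (9 / 10 : ℝ) ≤ x := by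
        calc 4 * x ^ (9 / 10 : ℝ) ≤ x ^ (1 / 10 : ℝ) * x ^ (9 / 10 : ℝ) := mul_le_mul_of_nonneg_right h5 h7.le
          _ = x := by rw [mul_comm, ← h6]
      linarith
    · have h5 : (I.filter (fun n : ℕ => l + i * d ∈ Gd c t X 0 (X / 2) (fun _ => {(n : ℤ)}) (n : ℤ))).card ≤
          (mult x q (fun n => δ * (n / (((l + i * d : ℕ) : ℝ) * Real.log n ^ 2)) ≤ (gl (l + i * d) n : ℝ))).card := by
        apply card_le_card
        intro n hn
        rw [mem_filter] at hn
        obtain ⟨hnI, hnG⟩ := hn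
        obtain ⟨a1, a2, a3, a4, a5, a6⟩ := hIm n hnI
        unfold mult
        rw [mem_filter, mem_Icc]
        refine ⟨⟨by omega, a2⟩, a3, a4, a5, ?_⟩
        unfold Gd at hnG
        rw [mem_filter] at hnG
        have h6 := ((hcomp n hnI).2 _ hl0).trans hnG.2.2.2
        refine h6.trans ?_
        have h7 : (RF t X 0 (X / 2) (fun _ => {(n : ℤ)}) n (l + i * d)).card ≤ gl (l + i * d) n := by
          unfold gl
          apply card_le_card
          intro p hp
          unfold RF at hp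
          rw [mem_filter] at hp
          obtain ⟨hp1, q', hq', hqq', hpq⟩ := hp
          obtain ⟨c1, c2, c3⟩ := hgood n hnI p hp1
          rw [c3] at hpq
          rw [mem_filter, mem_range]
          exact ⟨by omega, c1, q', hq', hqq', by omega⟩
        exact_mod_cast h7
      have h6 : η / 8 * (x / q) ≤ η * (I.card : ℝ) := by
        have h7 := mul_le_mul_of_nonneg_left hcase.le hη.le
        refine le_trans (le_of_eq ?_) h7
        field_simp
      exact (h6.trans h4).trans (by exact_mod_cast h5)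

end Pool.Agent.Results.MP_92f640_nt.StructureOfFailure
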