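import Pool.Agent.Q259.TM.All

/-!
# Goldbach representations of the multiples of `q`, for the integers `q` near the dilates of typical points

For the integers `q` near `a_k t + y`, where `t` is a typical point of a self-similar measure, the formula of Hardy and
Littlewood holds for all but `x / (q (log x)^A)` of the even multiples of `q` up to `x`, for all real `x ≥ q`. In
particular the assertion of the problem holds for `(x, q)` for ALL `x ≥ 4 q`.

Proof. The integers `n` near `a_k t + y` are, up to rounding, random integers `n` for which the frequencies `β` with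
`|E e(n β)| ≥ (log a)^(-V)` form a thin set (few cells of the length `1 / r²` are met by it, for every `r`, and few of
its members belong to a short interval). If `m` is uniformly distributed in `[M, 2 M)`, `M ≤ exp((log a)^D)`, the product
`m n` has the same property: if `|E e(m n γ)|` is large then `m γ` is near the thin set for many `m`, hence `γ` is within
`1 / M` of a fraction with a small denominator, and the numbers of cells and of members are bounded by double counting.
The theorem of the repository on random integers with a thin large spectrum applies to `m n`; by Markov's inequality and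
the lemma of Borel and Cantelli the number of the exceptional `m` is small for almost all `t`, for all `M` simultaneously.
For `x > exp((log a)^D)` the starting file `SparseExceptionalModuli` applies outside of the multiples of the members of
sparse sets `D(x)`. We show that the probability that `n` is divisible by `d` is at most a power of `1 / d`, for all
`d ≤ a` (for self-similar measures by the Hölder continuity of the measure and a passage to the scale `d`; for measures
with a Fourier transform in `L^p` by moments of the exponential sum); hence typical `n` have no divisors in `D(x)` for all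
`x > exp((log a)^D)`, if `D` is large.

Definitions used. `Pool.Agent.H560R3.GB`: `g n`: the number of ordered pairs `(p, q)` of primes with `p + q = n`;
`HL n = sing n * (n / log² n)`, where `sing n` is the singular series `2 C₂ ∏_{p ∣ n, p > 2} (p - 1) / (p - 2)`.
`Pool.Agent.Q259.AS`: `SelfSim μ`: `μ` is a self-similar measure `μ = ∑ p i * (f i)_* μ` of finitely many maps
`f i x = ρ i * x + t i` with `0 < |ρ i| < 1` and `p i > 0`, not all with the same fixed point (that is, `μ` is not a
point mass; overlaps are allowed and the ratios are arbitrary); `FourLp μ`: the Fourier transform of `μ` belongs to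
`L^p` for some `p < ∞`.
-/

set_option autoImplicit false

namespace Pool.Agent.Results.MP_92f640_nt.TypicalModuli

open MeasureTheory Filter
open Pool.Agent.H560R3.GB (g HL)
open Pool.Agent.Q259.AS (SelfSim FourLp)

/-- The even multiples `n` of `q` with `0 < n ≤ x` for which the formula of Hardy and Littlewood does not
hold with a relative error of at most `ε`, or which are not sums of two distinct primes. -/
def exceptional (ε x : ℝ) (q : ℕ) : Set ℕ :=
  {n : ℕ | 0 < n ∧ (n : ℝ) ≤ x ∧ 2 ∣ n ∧ q ∣ n ∧
    ¬ (|(g n : ℝ) - HL n| ≤ ε * HL n ∧ ∃ p p' : ℕ, p.Prime ∧ p'.Prime ∧ p ≠ p' ∧ p + p' = n)}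

/-- The even multiples `n` of `q` with `x / 2 < n ≤ x` and `g n < δ n / (log n)²`, as in the problem. -/
def few (δ x : ℝ) (q : ℕ) : Set ℕ :=
  {n : ℕ | x / 2 < n ∧ (n : ℝ) ≤ x ∧ 2 ∣ n ∧ q ∣ n ∧ (g n : ℝ) < δ * (n / Real.log n ^ 2)}

theorem exceptional_eq (ε x : ℝ) (q : ℕ) : exceptional ε x q = Pool.Agent.Q259.TM.Exc ε x q := rfl

lemma few_sub (ε x : ℝ) (q : ℕ) (_hx : 0 ≤ x) : few (1 - ε) x q ⊆ exceptional ε x q := by
  rintro n ⟨h1, h2, h3, h4, h5⟩
  have hn0 : 0 < n := by
    have : (0 : ℝ) < n := by linarith
    exact_mod_cast this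
  have hn2 : 2 ≤ n := Nat.le_of_dvd hn0 h3
  refine ⟨hn0, h2, h3, h4, ?_⟩
  rintro ⟨h6, -⟩
  have h7 := Pool.Agent.W93.GB.one_le_sing n
  have hlog : 0 < Real.log (n : ℝ) := Real.log_pos (by exact_mod_cast (by omega : 1 < n))
  have hn : (0 : ℝ) < n := by exact_mod_cast hn0
  have h8 : (n : ℝ) / Real.log n ^ 2 ≤ HL n := by
    unfold HL
    exact le_mul_of_one_le_left (by positivity) h7
  have h9 : 0 < (n : ℝ) / Real.log n ^ 2 := by positivity
  have h10 := (abs_le.1 h6).1
  have h11 : (0 : ℝ) ≤ g n := Nat.cast_nonneg _
  rcases le_total ε 1 with h12 | h12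
  · nlinarith
  · nlinarith

/-- Let `μ` be a probability measure on the line, self-similar and not a point mass, or with a Fourier transform
in `L^p` for some `p < ∞`. Let `log (a k) ≥ k ^ ρ` for large `k`, and let `Y k` be any set of at most `k ^ T` reals with
absolute values at most `B * a k`. Then for almost all `t`, for all `ε > 0` and `A C`, for all large `k`, all
`y ∈ Y k` and all positive integers `q` with `|q - (a k * t + y)| ≤ log ^ C (a k)`:
(1) for ALL real `x ≥ q` the number of the exceptional even multiples `n ≤ x` of `q` is at most `x / (q log ^ A x)`, and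
there are none if `x < q log ^ A x`;
(2) for ALL real `x ≥ 4 q` all but at most `x / (8 q)` of the even multiples `n` of `q` in `(x / 2, x]` satisfy
`g n ≥ (1 - ε) n / log² n`, the assertion of the problem for `(x, q)` with `δ = 1 - ε`. -/
theorem result (μ : Measure ℝ) [IsProbabilityMeasure μ] (hμ : SelfSim μ ∨ FourLp μ) (a : ℕ → ℝ) (ρ : ℝ) (hρ : 0 < ρ)
    (ha : ∀ᶠ k : ℕ in atTop, 0 < a k ∧ (k : ℝ) ^ ρ ≤ Real.log (a k)) (B T : ℕ) (Y : ℕ → Finset ℝ)
    (hY : ∀ᶠ k : ℕ in atTop, (Y k).card ≤ k ^ T ∧ ∀ y ∈ Y k, |y| ≤ B * a k) :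
    ∀ᵐ t ∂μ, ∀ ε : ℝ, 0 < ε → ∀ A C : ℕ, ∀ᶠ k : ℕ in atTop, ∀ y ∈ Y k, ∀ q : ℕ, 1 ≤ q →
      |(q : ℝ) - (a k * t + y)| ≤ Real.log (a k) ^ C →
      (∀ x : ℝ, (q : ℝ) ≤ x →
        (exceptional ε x q).Finite ∧ ((exceptional ε x q).ncard : ℝ) ≤ x / (q * Real.log x ^ A) ∧
        (x < q * Real.log x ^ A → exceptional ε x q = ∅)) ∧
      (∀ x : ℝ, 4 * (q : ℝ) ≤ x →
        (few (1 - ε) x q).Finite ∧ ((few (1 - ε) x q).ncard : ℝ) ≤ x / (8 * q)) := by
  filter_upwards [Pool.Agent.Q259.TM.as_all μ hμ a ρ hρ ha B T Y hY] with t ht ε hε A C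
  filter_upwards [ht ε hε A C, ht ε hε 1 C, Pool.Agent.Q259.AS.sizes_ev a ρ hρ ha 8] with k hk hk' hs y hy q hq hdist
  obtain ⟨hs8, -, -⟩ := hs
  have hq0 : (0 : ℝ) < q := by exact_mod_cast hq
  have hq1 : (1 : ℝ) ≤ q := by exact_mod_cast hq
  have key : ∀ x : ℝ, (q : ℝ) ≤ x → ((exceptional ε x q).ncard : ℝ) ≤ x / (q * Real.log x ^ A) := by
    intro x hx
    have hx1 : 1 ≤ x := hq1.trans hx
    have hlogx0 : 0 ≤ Real.log x := Real.log_nonneg hx1
    rcases lt_or_ge x 2 with hx2 | hx2
    · have h2 : exceptional ε x q = ∅ := by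
        rw [Set.eq_empty_iff_forall_notMem]
        rintro n ⟨b1, b2, b3, -⟩
        have h3 : 2 ≤ n := Nat.le_of_dvd b1 b3
        have h4 : (2 : ℝ) ≤ n := by exact_mod_cast h3
        linarith
      rw [h2, Set.ncard_empty]
      push_cast
      positivity
    · exact (hk y hy q hq hdist x hx).2 hx2
  constructor
  · intro x hx
    have h2 := key x hx
    have h1 := Pool.Agent.Q259.TM.exc_finite ε x q
    refine ⟨h1, h2, fun h3 => ?_⟩
    have hx1 : 1 ≤ x := hq1.trans hx
    have h4 : ((exceptional ε x q).ncard : ℝ) < 1 := by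
      refine lt_of_le_of_lt h2 ?_
      have h5 : 0 < (q : ℝ) * Real.log x ^ A := by linarith
      rw [div_lt_one h5]
      exact h3
    have h5 : (exceptional ε x q).ncard = 0 := by
      have : (exceptional ε x q).ncard < 1 := by exact_mod_cast h4
      omega
    exact (Set.ncard_eq_zero h1).1 h5
  · intro x hx
    have hsub := few_sub ε x q (by linarith)
    have h1 := Pool.Agent.Q259.TM.exc_finite ε x q
    refine ⟨h1.subset hsub, ?_⟩
    have h3 : ((few (1 - ε) x q).ncard : ℝ) ≤ ((exceptional ε x q).ncard : ℝ) := by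
      exact_mod_cast Set.ncard_le_ncard hsub h1
    refine h3.trans ((hk' y hy q hq hdist x (by linarith)).1.trans ?_)
    rw [pow_one]
    apply div_le_div_of_nonneg_left (by linarith) (by positivity)
    rw [mul_comm (q : ℝ)]
    exact mul_le_mul_of_nonneg_right hs8 hq0.le

end Pool.Agent.Results.MP_92f640_nt.TypicalModuli
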